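import Pool.Agent.Helper19.TGX.Goals
import Pool.Agent.Helper26.TGX.MPX
import Pool.Agent.Helper24.SGB.ELAW
import Pool.Agent.Helper79.T3.DEX
import Pool.Agent.Helper38.UQ.DERF

/-!
# Project TGX, CST: a point which is killed by all derivations is constant
-/

set_option autoImplicit false

namespace Pool.Agent.Helper40.TGX.CST

open WeierstrassCurve Polynomial
open Pool.Agent.Helper29.BL Pool.Agent.Helper42.SG
open Pool.Agent.Helper60.T3 (WL zd IP)
open Pool.Agent.Helper92.TG (mp)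

noncomputable section

variable {k : Type} [Field k] {F : Type} [Field F] [Algebra k F]

theorem mem_range [IsAlgClosed k] {x : F} (hx : IsAlgebraic k x) :
    x ∈ Set.range (algebraMap k F) := by
  have h1 := IsAlgClosed.degree_eq_one_of_irreducible k (minpoly.irreducible hx.isIntegral)
  obtain ⟨y, hy⟩ := minpoly.mem_range_of_degree_eq_one k x h1
  exact ⟨y, hy⟩

theorem aeval_bp (W' : Affine k) (x : F) :
    aeval x (Pool.Agent.Helper19.TGX.bp W') = Bf (WL F W') x := by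
  simp only [Pool.Agent.Helper19.TGX.bp, Bf, WL, WeierstrassCurve.map_b₂, WeierstrassCurve.map_b₄,
    WeierstrassCurve.map_b₆, map_add, map_mul, map_pow, map_ofNat, aeval_X, aeval_C]

theorem bp_ne_zero [CharZero k] (W' : Affine k) : Pool.Agent.Helper19.TGX.bp W' ≠ 0 := by
  intro h
  have h3 : (Pool.Agent.Helper19.TGX.bp W').coeff 3 = 4 := by
    have e : Pool.Agent.Helper19.TGX.bp W' =
        C 4 * X ^ 3 + C W'.b₂ * X ^ 2 + C (2 * W'.b₄) * X + C W'.b₆ := by
      simp only [Pool.Agent.Helper19.TGX.bp, map_mul, map_ofNat]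
    rw [e]
    simp [coeff_X_pow]
  rw [h, coeff_zero] at h3
  exact (by norm_num : (4 : k) ≠ 0) h3.symm

theorem t : Pool.Agent.Helper19.TGX.CST := by
  intro k _ _ _ _ W' hW' F _ _ _ T hT
  by_cases h0 : T = 0
  · exact ⟨0, by rw [h0]; exact map_zero _⟩
  have hsq : ps T ^ 2 = Bf (WL F W') (xc T) := Pool.Agent.Helper24.SGB.ps_sq T h0
  have hx : IsAlgebraic k (xc T) := by
    by_contra hx
    obtain ⟨D, hD, -⟩ := Pool.Agent.Helper79.T3.DEX.t Pool.Agent.Helper38.UQ.DERF.t k F (xc T) 1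
      hx one_ne_zero
    have h1 := hT D
    have h2 : D (xc T) / ps T = 0 := h1
    rw [hD, div_eq_zero_iff] at h2
    rcases h2 with h2 | h2
    · exact one_ne_zero h2
    · rw [h2, ← aeval_bp, zero_pow two_ne_zero] at hsq
      exact hx ⟨_, bp_ne_zero W', hsq.symm⟩
  obtain ⟨x₀, hx₀⟩ := mem_range hx
  obtain ⟨z, hz⟩ := IsAlgClosed.exists_pow_nat_eq (Bf W' x₀) (n := 2) two_pos
  have hz2 : ps T ^ 2 = (algebraMap k F z) ^ 2 := by
    rw [hsq, ← map_pow, hz, ← hx₀]
    simp only [Bf, WL, WeierstrassCurve.map_b₂, WeierstrassCurve.map_b₄,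
      WeierstrassCurve.map_b₆, map_add, map_mul, map_pow, map_ofNat]
  have hps : ps T ∈ Set.range (algebraMap k F) := by
    rcases sq_eq_sq_iff_eq_or_eq_neg.1 hz2 with h | h
    · exact ⟨z, h.symm⟩
    · exact ⟨-z, by rw [map_neg, h]⟩
  obtain ⟨p, hp⟩ := hps
  exact Pool.Agent.Helper26.TGX.MPX.exists_mp (Algebra.ofId k F) T
    (Or.inr ⟨⟨x₀, hx₀⟩, ⟨p, hp⟩⟩)

end

end Pool.Agent.Helper40.TGX.CST
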